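import Mathlib

set_option autoImplicit false

/-!
# Project BR4, module MV: the local factors and the function `β`
-/

namespace Pool.Agent.H42.BR4

open Finset

noncomputable section

/-- `h(p) = (1 - 1/p)² p/(p+1)` -/
def hp (p : ℕ) : ℝ := (1 - 1 / (p : ℝ)) ^ 2 * ((p : ℝ) / ((p : ℝ) + 1))

/-- the values at prime powers: `β(p) = h(p) - 1`, `β(p²) = - h(p)`, `β(p^k) = 0` for `k ≥ 3` -/
def lc (p k : ℕ) : ℝ := if k = 1 then hp p - 1 else if k = 2 then - hp p else 0

/-- `β`, multiplicative, with `μ² hh = 1 * β` -/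
def bt (n : ℕ) : ℝ := if n = 0 then 0 else ∏ p ∈ n.primeFactors, lc p (n.factorization p)

end

end Pool.Agent.H42.BR4
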