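import Mathlib
import Pool.Agent.H42.BR.Bt

set_option autoImplicit false

/-!
# Project BR4, module MV: the identity `μ² hh = 1 * β`
-/

namespace Pool.Agent.H42.BR4

open Finset

noncomputable section

/-- the values of `μ² hh` at prime powers -/
def gc (p k : ℕ) : ℝ := if k = 1 then hp p else 0

/-- the product of `u p (v_p n)` over the prime factors -/
def mf (u : ℕ → ℕ → ℝ) : ArithmeticFunction ℝ :=
  ⟨fun n => if n = 0 then 0 else n.factorization.prod u, by simp⟩

theorem mf_apply (u : ℕ → ℕ → ℝ) (n : ℕ) : mf u n = if n = 0 then 0 else n.factorization.prod u := rfl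

theorem mf_mult (u : ℕ → ℕ → ℝ) : (mf u).IsMultiplicative := by
  rw [ArithmeticFunction.IsMultiplicative.iff_ne_zero]
  refine ⟨by simp [mf_apply], fun {m n} hm hn hmn => ?_⟩
  rw [mf_apply, mf_apply, mf_apply, if_neg hm, if_neg hn, if_neg (mul_ne_zero hm hn),
    Nat.factorization_mul hm hn]
  refine Finsupp.prod_add_index_of_disjoint ?_ _
  simpa using hmn.disjoint_primeFactors

theorem mf_pow (u : ℕ → ℕ → ℝ) (p k : ℕ) (hp' : p.Prime) (hk : k ≠ 0) : mf u (p ^ k) = u p k := by
  rw [mf_apply, if_neg (pow_ne_zero _ hp'.ne_zero), hp'.factorization_pow]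
  unfold Finsupp.prod
  rw [Finsupp.support_single_ne_zero _ hk, prod_singleton, Finsupp.single_eq_same]

theorem conv_eq : (ArithmeticFunction.zeta : ArithmeticFunction ℝ) * mf lc = mf gc := by
  have h1 : ((ArithmeticFunction.zeta : ArithmeticFunction ℝ) * mf lc).IsMultiplicative :=
    (ArithmeticFunction.isMultiplicative_zeta.natCast).mul (mf_mult lc)
  rw [h1.eq_iff_eq_on_prime_powers _ _ (mf_mult gc)]
  intro p i hp'
  rw [ArithmeticFunction.coe_zeta_mul_apply, Nat.sum_divisors_prime_pow hp']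
  rcases Nat.eq_zero_or_pos i with rfl | hi
  · simp [mf_apply]
  rw [mf_pow gc p i hp' hi.ne']
  rcases Nat.lt_or_ge i 2 with h2 | h2
  · have h3 : i = 1 := by omega
    subst h3
    rw [sum_range_succ, sum_range_one, mf_pow lc p 1 hp' one_ne_zero]
    simp [mf_apply, lc, gc]
  · obtain ⟨j, rfl⟩ : ∃ j, i = j + 2 := ⟨i - 2, by omega⟩
    rw [sum_range_succ', sum_range_succ', sum_range_succ']
    have h4 : ∑ k ∈ range j, mf lc (p ^ (k + 1 + 1 + 1)) = 0 := by
      refine sum_eq_zero fun k _ => ?_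
      rw [mf_pow lc p _ hp' (by omega)]
      simp [lc]
    rw [h4, mf_pow lc p _ hp' (by omega), mf_pow lc p _ hp' (by omega)]
    simp [mf_apply, lc, gc]
    ring

theorem bt_eq (n : ℕ) : bt n = mf lc n := by
  unfold bt
  rw [mf_apply]
  rfl

theorem mf_gc (d : ℕ) (hd : d ≠ 0) :
    mf gc d = if Squarefree d then ∏ p ∈ d.primeFactors, hp p else 0 := by
  rw [mf_apply, if_neg hd]
  unfold Finsupp.prod
  rw [Nat.support_factorization]
  split_ifs with h
  · refine prod_congr rfl fun p hp' => ?_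
    have h1 : d.factorization p = 1 := by
      have h2 := (Nat.squarefree_iff_factorization_le_one hd).1 h p
      have h3 : d.factorization p ≠ 0 := by
        have := (Nat.prime_of_mem_primeFactors hp').factorization_pos_of_dvd hd
          (Nat.dvd_of_mem_primeFactors hp')
        omega
      omega
    unfold gc
    rw [if_pos h1]
  · rw [Nat.squarefree_iff_factorization_le_one hd] at h
    push Not at h
    obtain ⟨p, hp1⟩ := h
    have h3 : p ∈ d.primeFactors := by
      rw [← Nat.support_factorization, Finsupp.mem_support_iff]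
      omega
    refine prod_eq_zero h3 ?_
    unfold gc
    rw [if_neg (by omega)]

/-- `μ² ∏ h(p) = 1 * β` -/
theorem sum_bt (d : ℕ) (hd : d ≠ 0) :
    ∑ n ∈ d.divisors, bt n = if Squarefree d then ∏ p ∈ d.primeFactors, hp p else 0 := by
  rw [← mf_gc d hd, ← conv_eq, ArithmeticFunction.coe_zeta_mul_apply]
  exact sum_congr rfl fun n _ => bt_eq n

theorem prod_hp (d : ℕ) (hd : d ≠ 0) :
    ((d.totient : ℝ) / d) ^ 2 * ∏ p ∈ d.primeFactors, (p : ℝ) / ((p : ℝ) + 1) =
      ∏ p ∈ d.primeFactors, hp p := by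
  have h1 : (d.totient : ℝ) / d = ∏ p ∈ d.primeFactors, (1 - 1 / (p : ℝ)) := by
    have h2 := Nat.totient_eq_mul_prod_factors d
    have h3 : ((d.totient : ℚ) : ℝ) = ((d * ∏ p ∈ d.primeFactors, (1 - (p : ℚ)⁻¹) : ℚ) : ℝ) := by
      rw [h2]
    push_cast at h3
    have hd' : (d : ℝ) ≠ 0 := by exact_mod_cast hd
    rw [h3, mul_div_cancel_left₀ _ hd']
    exact prod_congr rfl fun p _ => by rw [one_div]
  rw [h1, ← prod_pow, ← prod_mul_distrib]
  rfl

end

end Pool.Agent.H42.BR4
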