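import Mathlib

set_option autoImplicit false

/-!
# Project BR4, module MV: mean values of `1 * β` over the odd residue classes modulo `8`
-/

namespace Pool.Agent.H42.BR4

open Finset Filter Topology

noncomputable section

/-- the number of `d ≤ X` in the class `c` modulo `8` which are divisible by `n` -/
def cnt (c X n : ℕ) : ℕ := ((Icc 1 X).filter (fun d => d % 8 = c ∧ n ∣ d)).card

theorem cnt_le (c X n : ℕ) : (cnt c X n : ℝ) * n ≤ X := by
  rcases Nat.eq_zero_or_pos n with rfl | hn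
  · simp
  have h1 : cnt c X n ≤ X / n := by
    have h2 : ((Icc 1 X).filter (fun d => d % 8 = c ∧ n ∣ d)) ⊆
        (Icc 1 (X / n)).image (fun k => n * k) := by
      intro d hd
      rw [mem_filter, mem_Icc] at hd
      obtain ⟨⟨h1, h2⟩, _, k, rfl⟩ := hd
      rw [mem_image]
      refine ⟨k, ?_, rfl⟩
      rw [mem_Icc]
      refine ⟨?_, ?_⟩
      · rcases Nat.eq_zero_or_pos k with rfl | h
        · simp at h1
        · exact h
      · rw [Nat.le_div_iff_mul_le hn, mul_comm]; exact h2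
    calc cnt c X n ≤ ((Icc 1 (X / n)).image (fun k => n * k)).card := card_le_card h2
      _ ≤ (Icc 1 (X / n)).card := card_image_le
      _ = X / n := by simp
  have h3 : cnt c X n * n ≤ X := by
    calc cnt c X n * n ≤ X / n * n := Nat.mul_le_mul_right _ h1
      _ ≤ X := Nat.div_mul_le_self _ _
  exact_mod_cast h3

theorem cnt_even (c X n : ℕ) (hc : Odd c) (hn : ¬ Odd n) : cnt c X n = 0 := by
  unfold cnt
  rw [card_eq_zero, filter_eq_empty_iff]
  rintro d _ ⟨h1, h2⟩
  apply hn
  have h3 : Odd d := by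
    rw [Nat.odd_iff] at hc ⊢
    omega
  exact Odd.of_dvd_nat h3 h2

theorem cnt_odd (c X n : ℕ) (hc8 : c < 8) (hc : Odd c) (hn : Odd n) :
    |(cnt c X n : ℝ) - X / (8 * n)| ≤ 2 := by
  have hn0 : 0 < n := hn.pos
  have hcop : Nat.Coprime 8 n := by
    have : Nat.Coprime (2 ^ 3) n := Nat.Coprime.pow_left 3 (Nat.coprime_two_left.2 hn)
    simpa using this
  obtain ⟨v, hv1, hv2⟩ := Nat.chineseRemainder hcop c 0
  have hr : 0 < 8 * n := by omega
  have h1 : cnt c X n = (X + 1).count (· ≡ v [MOD (8 * n)]) := by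
    unfold cnt
    rw [Nat.count_eq_card_filter_range]
    congr 1
    ext d
    simp only [mem_filter, mem_Icc, mem_range]
    have h2 : d ≡ v [MOD (8 * n)] ↔ (d % 8 = c ∧ n ∣ d) := by
      rw [← Nat.modEq_and_modEq_iff_modEq_mul hcop]
      constructor
      · rintro ⟨h3, h4⟩
        refine ⟨?_, ?_⟩
        · have h5 := h3.trans hv1
          unfold Nat.ModEq at h5
          omega
        · exact (Nat.modEq_zero_iff_dvd).1 (h4.trans hv2)
      · rintro ⟨h3, h4⟩
        refine ⟨?_, ?_⟩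
        · refine Nat.ModEq.trans ?_ hv1.symm
          unfold Nat.ModEq
          omega
        · exact ((Nat.modEq_zero_iff_dvd).2 h4).trans hv2.symm
    rw [h2]
    constructor
    · rintro ⟨⟨_, h4⟩, h5⟩
      exact ⟨by omega, h5⟩
    · rintro ⟨h4, h5⟩
      refine ⟨⟨?_, by omega⟩, h5⟩
      rcases Nat.eq_zero_or_pos d with rfl | h
      · rw [Nat.odd_iff] at hc; omega
      · exact h
  rw [h1, Nat.count_modEq_card _ hr]
  have h4 : ((X + 1) / (8 * n) * (8 * n) : ℕ) ≤ X + 1 := Nat.div_mul_le_self _ _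
  have h5 : X + 1 < ((X + 1) / (8 * n) + 1) * (8 * n) := by
    have := Nat.lt_div_mul_add (a := X + 1) hr
    rw [add_mul, one_mul]
    exact this
  have h4' : (((X + 1) / (8 * n) : ℕ) : ℝ) * (8 * n) ≤ X + 1 := by exact_mod_cast h4
  have h5' : (X : ℝ) + 1 < ((((X + 1) / (8 * n) : ℕ) : ℝ) + 1) * (8 * n) := by exact_mod_cast h5
  have hr' : (0 : ℝ) < 8 * n := by exact_mod_cast hr
  have hr1 : (1 : ℝ) ≤ 8 * n := by exact_mod_cast hr
  have h6 : (((X + 1) / (8 * n) : ℕ) : ℝ) ≤ (X : ℝ) / (8 * n) + 1 := by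
    rw [← sub_le_iff_le_add, le_div_iff₀ hr']
    nlinarith
  have h7 : (X : ℝ) / (8 * n) ≤ (((X + 1) / (8 * n) : ℕ) : ℝ) + 1 := by
    rw [div_le_iff₀ hr']
    nlinarith
  have h8 : (0 : ℝ) ≤ ((if v % (8 * n) < (X + 1) % (8 * n) then 1 else 0 : ℕ) : ℝ) := Nat.cast_nonneg _
  have h9 : ((if v % (8 * n) < (X + 1) % (8 * n) then 1 else 0 : ℕ) : ℝ) ≤ 1 := by
    split_ifs <;> simp
  push_cast at h6 h7 h8 h9 ⊢
  rw [abs_le]
  constructor <;> linarith

theorem sum_eq (β : ℕ → ℝ) (c X : ℕ) :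
    ∑ d ∈ (Icc 1 X).filter (fun d => d % 8 = c), ∑ n ∈ d.divisors, β n =
      ∑' n : ℕ, β n * cnt c X n := by
  rw [tsum_eq_sum (s := Icc 1 X)]
  · have h1 : ∀ d ∈ (Icc 1 X).filter (fun d => d % 8 = c), ∑ n ∈ d.divisors, β n =
        ∑ n ∈ Icc 1 X, if n ∣ d then β n else 0 := by
      intro d hd
      rw [mem_filter, mem_Icc] at hd
      rw [← sum_filter]
      refine sum_congr ?_ fun _ _ => rfl
      ext n
      rw [Nat.mem_divisors, mem_filter, mem_Icc]
      constructor
      · rintro ⟨h2, h3⟩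
        exact ⟨⟨Nat.pos_of_dvd_of_pos h2 (by omega), (Nat.le_of_dvd (by omega) h2).trans hd.1.2⟩, h2⟩
      · rintro ⟨_, h3⟩
        exact ⟨h3, by omega⟩
    rw [sum_congr rfl h1, sum_comm]
    refine sum_congr rfl fun n _ => ?_
    rw [← sum_filter, sum_const, nsmul_eq_mul, filter_filter, mul_comm]
    rfl
  · intro n hn
    have h2 : cnt c X n = 0 := by
      unfold cnt
      rw [card_eq_zero, filter_eq_empty_iff]
      rintro d hd ⟨_, h3⟩
      apply hn
      rw [mem_Icc] at hd ⊢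
      exact ⟨Nat.pos_of_dvd_of_pos h3 (by omega), (Nat.le_of_dvd (by omega) h3).trans hd.2⟩
    rw [h2]
    simp

/-- **Wintner's mean value theorem** in the odd residue classes modulo `8`. -/
theorem mean (β : ℕ → ℝ) (hs : Summable fun n : ℕ => |β n| / (n : ℝ)) (c : ℕ) (hc8 : c < 8)
    (hc : Odd c) :
    Tendsto (fun X : ℕ =>
      (∑ d ∈ (Icc 1 X).filter (fun d => d % 8 = c), ∑ n ∈ d.divisors, β n) / (X : ℝ)) atTop
      (𝓝 ((∑' n : ℕ, if Odd n then β n / (n : ℝ) else 0) / 8)) := by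
  have h1 : (fun X : ℕ => (∑ d ∈ (Icc 1 X).filter (fun d => d % 8 = c), ∑ n ∈ d.divisors, β n) /
      (X : ℝ)) = fun X : ℕ => ∑' n : ℕ, β n * (cnt c X n / (X : ℝ)) := by
    funext X
    rw [sum_eq, ← tsum_div_const]
    exact tsum_congr fun n => by ring
  have h2 : (∑' n : ℕ, if Odd n then β n / (n : ℝ) else 0) / 8 =
      ∑' n : ℕ, (if Odd n then β n * (1 / (8 * (n : ℝ))) else 0) := by
    rw [← tsum_div_const]
    refine tsum_congr fun n => ?_
    split_ifs with h
    · have : (n : ℝ) ≠ 0 := by exact_mod_cast h.pos.ne'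
      field_simp
    · simp
  rw [h1, h2]
  refine tendsto_tsum_of_dominated_convergence hs ?_ ?_
  · intro n
    by_cases hn : Odd n
    · simp only [hn, if_true]
      refine Tendsto.const_mul _ ?_
      have h3 : Tendsto (fun X : ℕ => 2 / (X : ℝ)) atTop (𝓝 0) := tendsto_const_div_atTop_nhds_zero_nat 2
      rw [tendsto_iff_norm_sub_tendsto_zero]
      refine squeeze_zero_norm' ?_ h3
      filter_upwards [eventually_gt_atTop 0] with X hX
      have hX' : (0 : ℝ) < X := by exact_mod_cast hX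
      have hn' : (0 : ℝ) < n := by exact_mod_cast hn.pos
      have h4 : (cnt c X n : ℝ) / X - 1 / (8 * n) = ((cnt c X n : ℝ) - X / (8 * n)) / X := by
        field_simp
      rw [h4, norm_norm, norm_div, Real.norm_eq_abs, Real.norm_eq_abs, abs_of_pos hX']
      exact div_le_div_of_nonneg_right (cnt_odd c X n hc8 hc hn) hX'.le
    · simp only [hn, if_false]
      have h5 : ∀ X : ℕ, β n * ((cnt c X n : ℝ) / X) = 0 := by
        intro X
        rw [cnt_even c X n hc hn]
        simp
      simp only [h5]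
      exact tendsto_const_nhds
  · refine Eventually.of_forall fun X n => ?_
    rw [norm_mul, Real.norm_eq_abs, Real.norm_eq_abs, div_eq_mul_one_div (|β n|)]
    refine mul_le_mul_of_nonneg_left ?_ (abs_nonneg _)
    rw [abs_of_nonneg (by positivity)]
    have h3 := cnt_le c X n
    rcases Nat.eq_zero_or_pos n with rfl | hn
    · have : cnt c X 0 = 0 := cnt_even c X 0 hc (by simp)
      rw [this]
      simp
    rcases Nat.eq_zero_or_pos X with rfl | hX
    · simp
    have hX' : (0 : ℝ) < X := by exact_mod_cast hX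
    have hn' : (0 : ℝ) < n := by exact_mod_cast hn
    rw [div_le_div_iff₀ hX' hn', one_mul]
    exact h3

end

end Pool.Agent.H42.BR4
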