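import Pool.Agent.H28.BR.Stm5
import Pool.Agent.H42.BR.Mean
import Pool.Agent.H42.BR.Conv

set_option autoImplicit false

/-!
# Project BR4, module MV
-/

namespace Pool.Agent.H42.BR4

open Finset Filter Topology

theorem hh_eq (d : ℕ) (hd : d ≠ 0) : H28.BR4.hh d = ∏ p ∈ d.primeFactors, hp p := prod_hp d hd

/-- `S_MV` from the properties of `β` -/
theorem mv_of (h3 : Summable fun n : ℕ => |bt n| / (n : ℝ))
    (h4 : (∑' n : ℕ, if Odd n then bt n / (n : ℝ) else 0) = H28.BR4.HH) : H28.BR4.S_MV := by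
  intro c hc8 hc
  have h5 := mean bt h3 c hc8 hc
  rw [h4] at h5
  refine h5.congr fun X => ?_
  congr 1
  have h6 : (Icc 1 X).filter (fun d => d % 8 = c ∧ Squarefree d) =
      ((Icc 1 X).filter (fun d => d % 8 = c)).filter (fun d => Squarefree d) := by
    rw [filter_filter]
  rw [h6, sum_filter (fun d => Squarefree d)]
  refine sum_congr rfl fun d hd => ?_
  rw [mem_filter, mem_Icc] at hd
  have hd0 : d ≠ 0 := by omega
  rw [sum_bt d hd0, hh_eq d hd0]

end Pool.Agent.H42.BR4
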